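import Mathlib

namespace Pool.Agent.MP_1e96f1_co

/-- `Bs` is the block set of a design with parameter `(v, k, d)` on the finite point set `Ω`:
at least two blocks, all of size `k`, and `d` is the largest size of an intersection of two
distinct blocks. -/
structure IsDesign {Ω : Type*} [Fintype Ω] [DecidableEq Ω] (Bs : Finset (Finset Ω))
    (v k d : ℕ) : Prop where
  card_points : Fintype.card Ω = v
  two_le : 2 ≤ Bs.card
  card_block : ∀ B ∈ Bs, B.card = k
  inter_le : ∀ B ∈ Bs, ∀ C ∈ Bs, B ≠ C → (B ∩ C).card ≤ d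
  inter_eq : ∃ B ∈ Bs, ∃ C ∈ Bs, B ≠ C ∧ (B ∩ C).card = d

/-- The design is a `β(i)` design: `1 ≤ i ≤ (v - d + 1) / 2` and every `(d + 2 i - 1)`-subset
of the point set meets exactly one block in at least `d + i` points. -/
def IsBeta {Ω : Type*} [DecidableEq Ω] (Bs : Finset (Finset Ω)) (v d i : ℕ) : Prop :=
  1 ≤ i ∧ d + 2 * i - 1 ≤ v ∧
    ∀ X : Finset Ω, X.card = d + 2 * i - 1 → ∃! B, B ∈ Bs ∧ d + i ≤ (X ∩ B).card

end Pool.Agent.MP_1e96f1_co
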