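import Mathlib
import Pool.Agent.MP_1e96f1_co.Defs

namespace Pool.Agent.MP_1e96f1_co

open Finset

variable {Ω : Type*} [Fintype Ω] [DecidableEq Ω]

/-- number of `a`-subsets of `P` containing `P0` -/
lemma card_supersets {P P0 : Finset Ω} (h : P0 ⊆ P) (a : ℕ) (ha : P0.card ≤ a) :
    ((P.powersetCard a).filter (fun S => P0 ⊆ S)).card = (P.card - P0.card).choose (a - P0.card) := by
  rw [← Finset.card_sdiff_of_subset h, ← Finset.card_powersetCard]
  refine Finset.card_nbij' (fun S => S \ P0) (fun S => S ∪ P0) ?_ ?_ ?_ ?_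
  · intro S hS
    simp only [Finset.coe_filter, Finset.mem_powersetCard, Set.mem_ofPred_eq] at hS
    simp only [Finset.mem_coe, Finset.mem_powersetCard]
    refine ⟨Finset.sdiff_subset_sdiff hS.1.1 (Finset.Subset.refl _), ?_⟩
    rw [Finset.card_sdiff_of_subset hS.2, hS.1.2]
  · intro S hS
    simp only [Finset.mem_coe, Finset.mem_powersetCard] at hS
    simp only [Finset.coe_filter, Finset.mem_powersetCard, Set.mem_ofPred_eq]
    refine ⟨⟨Finset.union_subset (hS.1.trans Finset.sdiff_subset) h, ?_⟩,
      Finset.subset_union_right⟩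
    rw [Finset.card_union_of_disjoint, hS.2]
    · omega
    · exact Finset.disjoint_of_subset_left hS.1 Finset.sdiff_disjoint
  · intro S hS
    simp only [Finset.coe_filter, Finset.mem_powersetCard, Set.mem_ofPred_eq] at hS
    exact Finset.sdiff_union_of_subset hS.2
  · intro S hS
    simp only [Finset.mem_coe, Finset.mem_powersetCard] at hS
    have : Disjoint S P0 := Finset.disjoint_of_subset_left hS.1 Finset.sdiff_disjoint
    show (S ∪ P0) \ P0 = S
    rw [Finset.union_sdiff_distrib, Finset.sdiff_self, Finset.union_empty,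
      Finset.sdiff_eq_self_of_disjoint this]

/-- splitting a set `X ⊇ T` into its part inside `B` and its part outside -/
lemma card_split (B T : Finset Ω) (a b : ℕ) :
    ((univ : Finset (Finset Ω)).filter
      (fun X => T ⊆ X ∧ (X ∩ B).card = a ∧ (X \ B).card = b)).card =
    ((B.powersetCard a).filter (fun S => T ∩ B ⊆ S)).card *
      (((Bᶜ).powersetCard b).filter (fun S => T \ B ⊆ S)).card := by
  rw [← Finset.card_product]
  refine Finset.card_nbij' (fun X => (X ∩ B, X \ B)) (fun p => p.1 ∪ p.2) ?_ ?_ ?_ ?_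
  · intro X hX
    simp only [Finset.coe_filter, Finset.mem_univ, true_and, Set.mem_ofPred_eq] at hX
    simp only [Finset.coe_product, Set.mem_prod, Finset.mem_coe, Finset.mem_filter,
      Finset.mem_powersetCard]
    refine ⟨⟨⟨Finset.inter_subset_right, hX.2.1⟩, Finset.inter_subset_inter_right hX.1⟩,
      ⟨⟨?_, hX.2.2⟩, Finset.sdiff_subset_sdiff hX.1 (Finset.Subset.refl _)⟩⟩
    intro x hx
    rw [Finset.mem_sdiff] at hx
    exact Finset.mem_compl.mpr hx.2
  · rintro ⟨S1, S2⟩ hS
    simp only [Finset.coe_product, Set.mem_prod, Finset.mem_coe, Finset.mem_filter,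
      Finset.mem_powersetCard] at hS
    obtain ⟨⟨⟨h1, h2⟩, h3⟩, ⟨h4, h5⟩, h6⟩ := hS
    simp only [Finset.coe_filter, Finset.mem_univ, true_and, Set.mem_ofPred_eq]
    have e1 : (S1 ∪ S2) ∩ B = S1 := by
      ext x
      simp only [Finset.mem_inter, Finset.mem_union]
      constructor
      · rintro ⟨h | h, hB⟩
        · exact h
        · exact absurd hB (Finset.mem_compl.mp (h4 h))
      · intro h
        exact ⟨Or.inl h, h1 h⟩
    have e2 : (S1 ∪ S2) \ B = S2 := by
      ext x
      simp only [Finset.mem_sdiff, Finset.mem_union]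
      constructor
      · rintro ⟨h | h, hB⟩
        · exact absurd (h1 h) hB
        · exact h
      · intro h
        exact ⟨Or.inr h, Finset.mem_compl.mp (h4 h)⟩
    refine ⟨?_, by rw [e1, h2], by rw [e2, h5]⟩
    intro x hx
    rw [Finset.mem_union]
    by_cases hB : x ∈ B
    · left; exact h3 (Finset.mem_inter.mpr ⟨hx, hB⟩)
    · right; exact h6 (Finset.mem_sdiff.mpr ⟨hx, hB⟩)
  · intro X hX
    show (X ∩ B) ∪ (X \ B) = X
    ext x
    simp only [Finset.mem_inter, Finset.mem_union, Finset.mem_sdiff]
    tauto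
  · rintro ⟨S1, S2⟩ hS
    simp only [Finset.coe_product, Set.mem_prod, Finset.mem_coe, Finset.mem_filter,
      Finset.mem_powersetCard] at hS
    obtain ⟨⟨⟨h1, h2⟩, h3⟩, ⟨h4, h5⟩, h6⟩ := hS
    have e1 : (S1 ∪ S2) ∩ B = S1 := by
      ext x
      simp only [Finset.mem_inter, Finset.mem_union]
      constructor
      · rintro ⟨h | h, hB⟩
        · exact h
        · exact absurd hB (Finset.mem_compl.mp (h4 h))
      · intro h
        exact ⟨Or.inl h, h1 h⟩
    have e2 : (S1 ∪ S2) \ B = S2 := by
      ext x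
      simp only [Finset.mem_sdiff, Finset.mem_union]
      constructor
      · rintro ⟨h | h, hB⟩
        · exact absurd (h1 h) hB
        · exact h
      · intro h
        exact ⟨Or.inr h, Finset.mem_compl.mp (h4 h)⟩
    simp only [e1, e2]

/-- number of `X ⊇ T` with `a` points in `B` and `b` points outside -/
def cnt (B T : Finset Ω) (a b : ℕ) : ℕ :=
  ((univ : Finset (Finset Ω)).filter
      (fun X => T ⊆ X ∧ (X ∩ B).card = a ∧ (X \ B).card = b)).card

lemma cnt_eq (B T : Finset Ω) (a b : ℕ) (ha : (T ∩ B).card ≤ a) (hb : (T \ B).card ≤ b) :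
    cnt B T a b = (B.card - (T ∩ B).card).choose (a - (T ∩ B).card) *
      (Bᶜ.card - (T \ B).card).choose (b - (T \ B).card) := by
  unfold cnt
  rw [card_split, card_supersets Finset.inter_subset_right a ha, card_supersets _ b hb]
  intro x hx
  rw [Finset.mem_sdiff] at hx
  exact Finset.mem_compl.mpr hx.2

lemma cnt_zero (B T : Finset Ω) (a b : ℕ) (hb : b < (T \ B).card) :
    cnt B T a b = 0 := by
  unfold cnt
  rw [Finset.card_eq_zero, Finset.filter_eq_empty_iff]
  rintro X - ⟨h1, -, h3⟩
  have := Finset.card_le_card (Finset.sdiff_subset_sdiff h1 (Finset.Subset.refl B))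
  omega

/-- number of `X ⊇ T` with `|X| = e + r` and `|X ∩ B| ≥ e` for a block `B`, for `r = 1` -/
lemma sup_two (B T : Finset Ω) (e : ℕ) :
    ((univ : Finset (Finset Ω)).filter
      (fun X => T ⊆ X ∧ X.card = e + 1 ∧ e ≤ (X ∩ B).card)).card =
      cnt B T (e + 1) 0 + cnt B T e 1 := by
  unfold cnt
  rw [← Finset.card_union_of_disjoint]
  · congr 1
    ext X
    have := Finset.card_inter_add_card_sdiff X B
    simp only [Finset.mem_filter, Finset.mem_univ, true_and, Finset.mem_union]
    constructor
    · rintro ⟨h1, h2, h3⟩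
      by_cases h4 : (X \ B).card = 0
      · left; exact ⟨h1, by omega, h4⟩
      · right; exact ⟨h1, by omega, by omega⟩
    · rintro (⟨h1, h2, h3⟩ | ⟨h1, h2, h3⟩)
      · exact ⟨h1, by omega, by omega⟩
      · exact ⟨h1, by omega, by omega⟩
  · rw [Finset.disjoint_left]
    intro X h1 h2
    simp only [Finset.mem_filter, Finset.mem_univ, true_and] at h1 h2
    omega

/-- the same for `|X| = e + 2` -/
lemma sup_three (B T : Finset Ω) (e : ℕ) :
    ((univ : Finset (Finset Ω)).filter
      (fun X => T ⊆ X ∧ X.card = e + 2 ∧ e ≤ (X ∩ B).card)).card =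
      cnt B T (e + 2) 0 + cnt B T (e + 1) 1 + cnt B T e 2 := by
  unfold cnt
  rw [← Finset.card_union_of_disjoint, ← Finset.card_union_of_disjoint]
  · congr 1
    ext X
    have := Finset.card_inter_add_card_sdiff X B
    simp only [Finset.mem_filter, Finset.mem_univ, true_and, Finset.mem_union]
    constructor
    · rintro ⟨h1, h2, h3⟩
      by_cases h4 : (X \ B).card = 0
      · left; left; exact ⟨h1, by omega, h4⟩
      · by_cases h5 : (X \ B).card = 1
        · left; right; exact ⟨h1, by omega, h5⟩
        · right; exact ⟨h1, by omega, by omega⟩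
    · rintro ((⟨h1, h2, h3⟩ | ⟨h1, h2, h3⟩) | ⟨h1, h2, h3⟩)
      · exact ⟨h1, by omega, by omega⟩
      · exact ⟨h1, by omega, by omega⟩
      · exact ⟨h1, by omega, by omega⟩
  · rw [Finset.disjoint_left]
    intro X h1 h2
    simp only [Finset.mem_union, Finset.mem_filter, Finset.mem_univ, true_and] at h1 h2
    omega
  · rw [Finset.disjoint_left]
    intro X h1 h2
    simp only [Finset.mem_filter, Finset.mem_univ, true_and] at h1 h2
    omega

/-- number of `X ⊇ T` of size `n` -/
lemma sup_all (T : Finset Ω) (n : ℕ) (hn : T.card ≤ n) :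
    ((univ : Finset (Finset Ω)).filter (fun X => T ⊆ X ∧ X.card = n)).card =
      (Fintype.card Ω - T.card).choose (n - T.card) := by
  rw [← Finset.card_univ, ← card_supersets (Finset.subset_univ T) n hn]
  congr 1
  ext X
  simp only [Finset.mem_filter, Finset.mem_univ, true_and, Finset.mem_powersetCard,
    Finset.subset_univ]
  tauto

end Pool.Agent.MP_1e96f1_co
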