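import Mathlib

namespace Pool.Agent.MP_1e96f1_co

/-- chain test: returns true if the quotients stay integral -/
def chainOK (A B M N : ℕ) : Bool :=
  decide (A % B = 0) &&
  (let l0 := A / B
   decide ((l0 * (N + 2)) % (M + 1) = 0) &&
   (let l1 := (l0 * (N + 2)) / (M + 1)
    decide ((l1 * (N + 3)) % (M + 2) = 0) &&
    (let l2 := (l1 * (N + 3)) / (M + 2)
     decide ((l2 * (N + 4)) % (M + 3) = 0) &&
     (let l3 := (l2 * (N + 4)) / (M + 3)
      decide ((l3 * (N + 5)) % (M + 4) = 0) &&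
      (let l4 := (l3 * (N + 5)) / (M + 4)
       decide ((l4 * (N + 6)) % (M + 5) = 0))))))

lemma chainOK_of {A B M N l0 l1 l2 l3 l4 l5 : ℕ} (hB : 0 < B) (h0 : l0 * B = A)
    (h1 : l1 * (M + 1) = l0 * (N + 2)) (h2 : l2 * (M + 2) = l1 * (N + 3))
    (h3 : l3 * (M + 3) = l2 * (N + 4)) (h4 : l4 * (M + 4) = l3 * (N + 5))
    (h5 : l5 * (M + 5) = l4 * (N + 6)) : chainOK A B M N = true := by
  have e0 : A / B = l0 := by rw [← h0]; exact Nat.mul_div_cancel _ hB
  have m0 : A % B = 0 := by rw [← h0]; exact Nat.mul_mod_left _ _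
  have e1 : (l0 * (N + 2)) / (M + 1) = l1 := by
    rw [← h1]; exact Nat.mul_div_cancel _ (by omega)
  have m1 : (l0 * (N + 2)) % (M + 1) = 0 := by rw [← h1]; exact Nat.mul_mod_left _ _
  have e2 : (l1 * (N + 3)) / (M + 2) = l2 := by
    rw [← h2]; exact Nat.mul_div_cancel _ (by omega)
  have m2 : (l1 * (N + 3)) % (M + 2) = 0 := by rw [← h2]; exact Nat.mul_mod_left _ _
  have e3 : (l2 * (N + 4)) / (M + 3) = l3 := by
    rw [← h3]; exact Nat.mul_div_cancel _ (by omega)
  have m3 : (l2 * (N + 4)) % (M + 3) = 0 := by rw [← h3]; exact Nat.mul_mod_left _ _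
  have e4 : (l3 * (N + 5)) / (M + 4) = l4 := by
    rw [← h4]; exact Nat.mul_div_cancel _ (by omega)
  have m4 : (l3 * (N + 5)) % (M + 4) = 0 := by rw [← h4]; exact Nat.mul_mod_left _ _
  have m5 : (l4 * (N + 6)) % (M + 5) = 0 := by rw [← h5]; exact Nat.mul_mod_left _ _
  simp only [chainOK, e0, m0, e1, m1, e2, m2, e3, m3, e4, m4, m5, decide_true, Bool.and_true]

lemma choose_df (a t M N s : ℕ) (h : a * (t + 1) * M.choose s = N.choose s) :
    a * (t + 1) * M.descFactorial s = N.descFactorial s := by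
  rw [Nat.descFactorial_eq_factorial_mul_choose, Nat.descFactorial_eq_factorial_mul_choose, ← h]
  ring

/-- the existence of five further integral quotients -/
def Chain (a M N : ℕ) : Prop := ∃ l1 l2 l3 l4 l5 : ℕ, l1 * (M + 1) = a * (N + 2) ∧
  l2 * (M + 2) = l1 * (N + 3) ∧ l3 * (M + 3) = l2 * (N + 4) ∧ l4 * (M + 4) = l3 * (N + 5) ∧
  l5 * (M + 5) = l4 * (N + 6)

lemma Chain.ok {a M N A B : ℕ} (h : Chain a M N) (hB : 0 < B) (h0 : a * B = A) :
    chainOK A B M N = true := by
  obtain ⟨l1, l2, l3, l4, l5, h1, h2, h3, h4, h5⟩ := h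
  exact chainOK_of hB h0 h1 h2 h3 h4 h5

lemma case53 (a t N : ℕ) (hN : N * 3 = t * 6 + 18) (ht : 11 ≤ t)
    (h : a * (t + 1) * Nat.descFactorial 6 3 = N.descFactorial 3) : False := by
  have hN2 : N = 2 * t + 6 := by omega
  subst hN2
  have e1 : Nat.descFactorial 6 3 = 120 := by decide
  have e2 : (2 * t + 6).descFactorial 3 = (2 * t + 6) * (2 * t + 5) * (2 * t + 4) := by
    simp [Nat.descFactorial_succ]
    ring
  rw [e1, e2] at h
  have h3 : (t + 1) ∣ 6 := by
    have h4 : (t + 1) * (30 * a) = (t + 1) * ((t + 1) * (2 * (t + 1)) + 9 * (t + 1) + 13) + 6 := by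
      nlinarith [h]
    exact (Nat.dvd_add_right (Dvd.intro _ rfl)).mp (h4 ▸ Dvd.intro _ rfl)
  have := Nat.le_of_dvd (by norm_num) h3
  omega

lemma fin63 : ∀ q < 9, 0 < q → 176 % q = 0 → (176 / q) % 3 = 1 →
    chainOK ((((176 / q - 1) / 3) + 1) * (7 * ((176 / q - 1) / 3) + 6) *
      (7 * ((176 / q - 1) / 3) + 5)) (30 * (176 / q)) 7 (7 * ((176 / q - 1) / 3 + 1)) = false := by
  decide +kernel

lemma case63 (a t N : ℕ) (hN : N * 3 = t * 7 + 21) (ht : 21 ≤ t)
    (h : a * (t + 1) * Nat.descFactorial 7 3 = N.descFactorial 3) (hc : Chain a 7 N) : False := by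
  obtain ⟨r, rfl⟩ : ∃ r, t = 3 * r := ⟨t / 3, by omega⟩
  have hN2 : N = 7 * (r + 1) := by omega
  subst hN2
  have e1 : Nat.descFactorial 7 3 = 210 := by decide
  have e2 : (7 * (r + 1)).descFactorial 3 = (7 * r + 7) * (7 * r + 6) * (7 * r + 5) := by
    rw [show 7 * (r + 1) = 7 * r + 7 by ring]
    simp [Nat.descFactorial_succ]
    ring
  rw [e1, e2] at h
  have h1 : a * (30 * (3 * r + 1)) = (r + 1) * (7 * r + 6) * (7 * r + 5) := by nlinarith [h]
  have h3 : (3 * r + 1) ∣ 176 := by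
    have h4 : (3 * r + 1) * (27 * 30 * a) = (3 * r + 1) * (354 + 231 * (3 * r + 1) +
        49 * (3 * r + 1) ^ 2) + 176 := by
      have h5 : 27 * (a * (30 * (3 * r + 1))) = ((3 * r + 1) + 2) * (7 * (3 * r + 1) + 11) *
        (7 * (3 * r + 1) + 8) := by rw [h1]; ring
      nlinarith [h5]
    exact (Nat.dvd_add_right (Dvd.intro _ rfl)).mp (h4 ▸ Dvd.intro _ rfl)
  obtain ⟨q, hq⟩ := h3
  have hq0 : 0 < q := by
    rcases Nat.eq_zero_or_pos q with h | h
    · rw [h] at hq; omega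
    · exact h
  have hq9 : q < 9 := by
    by_contra hcon
    push Not at hcon
    nlinarith
  have hx : 176 / q = 3 * r + 1 := by
    rw [hq]; exact Nat.mul_div_cancel _ hq0
  have hm : 176 % q = 0 := by rw [hq]; exact Nat.mul_mod_left _ _
  have := fin63 q hq9 hq0 hm (by rw [hx]; omega)
  rw [hx] at this
  have hr : (3 * r + 1 - 1) / 3 = r := by omega
  rw [hr] at this
  have hok := hc.ok (B := 30 * (3 * r + 1)) (by omega) h1
  rw [this] at hok
  exact Bool.false_ne_true hok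

lemma fin73 : ∀ q < 3, 0 < q → 130 % q = 0 → (130 / q) % 3 = 1 →
    chainOK ((((130 / q - 1) / 3) + 1) * (8 * ((130 / q - 1) / 3) + 7) *
      (4 * ((130 / q - 1) / 3) + 3)) (21 * (130 / q)) 8 (8 * ((130 / q - 1) / 3 + 1)) = false := by
  decide +kernel

lemma case73 (a t N : ℕ) (hN : N * 3 = t * 8 + 24) (ht : 51 ≤ t)
    (h : a * (t + 1) * Nat.descFactorial 8 3 = N.descFactorial 3) (hc : Chain a 8 N) : False := by
  obtain ⟨r, rfl⟩ : ∃ r, t = 3 * r := ⟨t / 3, by omega⟩
  have hN2 : N = 8 * (r + 1) := by omega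
  subst hN2
  have e1 : Nat.descFactorial 8 3 = 336 := by decide
  have e2 : (8 * (r + 1)).descFactorial 3 = (8 * r + 8) * (8 * r + 7) * (8 * r + 6) := by
    rw [show 8 * (r + 1) = 8 * r + 8 by ring]
    simp [Nat.descFactorial_succ]
    ring
  rw [e1, e2] at h
  have h1 : a * (21 * (3 * r + 1)) = (r + 1) * (8 * r + 7) * (4 * r + 3) := by nlinarith [h]
  have h3 : (3 * r + 1) ∣ 130 := by
    have h4 : (3 * r + 1) * (27 * 21 * a) = (3 * r + 1) * (249 + 156 * (3 * r + 1) +
        32 * (3 * r + 1) ^ 2) + 130 := by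
      have h5 : 27 * (a * (21 * (3 * r + 1))) = ((3 * r + 1) + 2) * (8 * (3 * r + 1) + 13) *
        (4 * (3 * r + 1) + 5) := by rw [h1]; ring
      nlinarith [h5]
    exact (Nat.dvd_add_right (Dvd.intro _ rfl)).mp (h4 ▸ Dvd.intro _ rfl)
  obtain ⟨q, hq⟩ := h3
  have hq0 : 0 < q := by
    rcases Nat.eq_zero_or_pos q with h | h
    · rw [h] at hq; omega
    · exact h
  have hq9 : q < 3 := by
    by_contra hcon
    push Not at hcon
    nlinarith
  have hx : 130 / q = 3 * r + 1 := by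
    rw [hq]; exact Nat.mul_div_cancel _ hq0
  have hm : 130 % q = 0 := by rw [hq]; exact Nat.mul_mod_left _ _
  have := fin73 q hq9 hq0 hm (by rw [hx]; omega)
  rw [hx] at this
  have hr : (3 * r + 1 - 1) / 3 = r := by omega
  rw [hr] at this
  have hok := hc.ok (B := 21 * (3 * r + 1)) (by omega) h1
  rw [this] at hok
  exact Bool.false_ne_true hok

lemma fin54 : ∀ q < 206, 0 < q → 5967 % q = 0 → (5967 / q) % 4 = 1 →
    chainOK ((((5967 / q - 1) / 4) + 1) * (7 * ((5967 / q - 1) / 4) + 6) *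
      (7 * ((5967 / q - 1) / 4) + 5) * (7 * ((5967 / q - 1) / 4) + 4))
      (120 * (5967 / q)) 7 (7 * ((5967 / q - 1) / 4 + 1)) = false := by
  decide +kernel

lemma case54 (a t N : ℕ) (hN : N * 4 = t * 7 + 28) (ht : 28 ≤ t)
    (h : a * (t + 1) * Nat.descFactorial 7 4 = N.descFactorial 4) (hc : Chain a 7 N) : False := by
  obtain ⟨r, rfl⟩ : ∃ r, t = 4 * r := ⟨t / 4, by omega⟩
  have hN2 : N = 7 * (r + 1) := by omega
  subst hN2
  have e1 : Nat.descFactorial 7 4 = 840 := by decide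
  have e2 : (7 * (r + 1)).descFactorial 4 =
      (7 * r + 7) * (7 * r + 6) * (7 * r + 5) * (7 * r + 4) := by
    rw [show 7 * (r + 1) = 7 * r + 7 by ring]
    simp [Nat.descFactorial_succ]
    ring
  rw [e1, e2] at h
  have h1 : a * (120 * (4 * r + 1)) = (r + 1) * (7 * r + 6) * (7 * r + 5) * (7 * r + 4) := by
    nlinarith [h]
  have h3 : (4 * r + 1) ∣ 5967 := by
    have h5 : 256 * (a * (120 * (4 * r + 1))) = ((4 * r + 1) + 3) * (7 * (4 * r + 1) + 17) *
        (7 * (4 * r + 1) + 13) * (7 * (4 * r + 1) + 9) := by rw [h1]; ring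
    have h6 : ((4 * r + 1) + 3) * (7 * (4 * r + 1) + 17) *
        (7 * (4 * r + 1) + 13) * (7 * (4 * r + 1) + 9) = (4 * r + 1) * (12300 + 9170 * (4 * r + 1) +
        2940 * (4 * r + 1) ^ 2 + 343 * (4 * r + 1) ^ 3) + 5967 := by ring
    have h7 : (4 * r + 1) * (256 * 120 * a) = (4 * r + 1) * (12300 + 9170 * (4 * r + 1) +
        2940 * (4 * r + 1) ^ 2 + 343 * (4 * r + 1) ^ 3) + 5967 := by
      rw [← h6, ← h5]; ring
    exact (Nat.dvd_add_right (Dvd.intro _ rfl)).mp (h7 ▸ Dvd.intro _ rfl)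
  obtain ⟨q, hq⟩ := h3
  have hq0 : 0 < q := by
    rcases Nat.eq_zero_or_pos q with h | h
    · rw [h] at hq; omega
    · exact h
  have hq9 : q < 206 := by
    by_contra hcon
    push Not at hcon
    nlinarith
  have hx : 5967 / q = 4 * r + 1 := by
    rw [hq]; exact Nat.mul_div_cancel _ hq0
  have hm : 5967 % q = 0 := by rw [hq]; exact Nat.mul_mod_left _ _
  have := fin54 q hq9 hq0 hm (by rw [hx]; omega)
  rw [hx] at this
  have hr : (4 * r + 1 - 1) / 4 = r := by omega
  rw [hr] at this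
  have hok := hc.ok (B := 120 * (4 * r + 1)) (by omega) h1
  rw [this] at hok
  exact Bool.false_ne_true hok

lemma fin55 : ∀ q < 705, 0 < q → 60588 % q = 0 → (60588 / q) % 5 = 1 →
    chainOK ((((60588 / q - 1) / 5) + 1) * (8 * ((60588 / q - 1) / 5) + 7) *
      (4 * ((60588 / q - 1) / 5) + 3) * (8 * ((60588 / q - 1) / 5) + 5) *
      (2 * ((60588 / q - 1) / 5) + 1))
      (105 * (60588 / q)) 8 (8 * ((60588 / q - 1) / 5 + 1)) = false := by
  decide +kernel

lemma case55 (a t N : ℕ) (hN : N * 5 = t * 8 + 40) (ht : 85 ≤ t)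
    (h : a * (t + 1) * Nat.descFactorial 8 5 = N.descFactorial 5) (hc : Chain a 8 N) : False := by
  obtain ⟨r, rfl⟩ : ∃ r, t = 5 * r := ⟨t / 5, by omega⟩
  have hN2 : N = 8 * (r + 1) := by omega
  subst hN2
  have e1 : Nat.descFactorial 8 5 = 6720 := by decide
  have e2 : (8 * (r + 1)).descFactorial 5 =
      (8 * r + 8) * (8 * r + 7) * (8 * r + 6) * (8 * r + 5) * (8 * r + 4) := by
    rw [show 8 * (r + 1) = 8 * r + 8 by ring]
    simp [Nat.descFactorial_succ]
    ring
  rw [e1, e2] at h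
  have h1 : a * (105 * (5 * r + 1)) =
      (r + 1) * (8 * r + 7) * (4 * r + 3) * (8 * r + 5) * (2 * r + 1) := by
    nlinarith [h]
  have h3 : (5 * r + 1) ∣ 60588 := by
    have h5 : 3125 * (a * (105 * (5 * r + 1))) = ((5 * r + 1) + 4) * (8 * (5 * r + 1) + 27) *
        (4 * (5 * r + 1) + 11) * (8 * (5 * r + 1) + 17) * (2 * (5 * r + 1) + 3) := by
      rw [h1]; ring
    have h6 : ((5 * r + 1) + 4) * (8 * (5 * r + 1) + 27) *
        (4 * (5 * r + 1) + 11) * (8 * (5 * r + 1) + 17) * (2 * (5 * r + 1) + 3) =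
        (5 * r + 1) * (124035 + 98230 * (5 * r + 1) +
        37720 * (5 * r + 1) ^ 2 + 7040 * (5 * r + 1) ^ 3 + 512 * (5 * r + 1) ^ 4) + 60588 := by ring
    have h7 : (5 * r + 1) * (3125 * 105 * a) = (5 * r + 1) * (124035 + 98230 * (5 * r + 1) +
        37720 * (5 * r + 1) ^ 2 + 7040 * (5 * r + 1) ^ 3 + 512 * (5 * r + 1) ^ 4) + 60588 := by
      rw [← h6, ← h5]; ring
    exact (Nat.dvd_add_right (Dvd.intro _ rfl)).mp (h7 ▸ Dvd.intro _ rfl)
  obtain ⟨q, hq⟩ := h3
  have hq0 : 0 < q := by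
    rcases Nat.eq_zero_or_pos q with h | h
    · rw [h] at hq; omega
    · exact h
  have hq9 : q < 705 := by
    by_contra hcon
    push Not at hcon
    nlinarith
  have hx : 60588 / q = 5 * r + 1 := by
    rw [hq]; exact Nat.mul_div_cancel _ hq0
  have hm : 60588 % q = 0 := by rw [hq]; exact Nat.mul_mod_left _ _
  have := fin55 q hq9 hq0 hm (by rw [hx]; omega)
  rw [hx] at this
  have hr : (5 * r + 1 - 1) / 5 = r := by omega
  rw [hr] at this
  have hok := hc.ok (B := 105 * (5 * r + 1)) (by omega) h1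
  rw [this] at hok
  exact Bool.false_ne_true hok

lemma case_two (a t m N : ℕ) (hm : 5 ≤ m) (hN : N * 2 = (t + 2) * m) (ht : m ≤ t + 1)
    (h : a * (t + 1) * m.descFactorial 2 = N.descFactorial 2) : False := by
  have hNpos : 1 ≤ N := by nlinarith
  obtain ⟨N', rfl⟩ : ∃ N', N = N' + 1 := ⟨N - 1, by omega⟩
  obtain ⟨m', rfl⟩ : ∃ m', m = m' + 1 := ⟨m - 1, by omega⟩
  simp only [Nat.descFactorial_succ, Nat.descFactorial_zero, Nat.sub_zero, mul_one,
    Nat.add_sub_cancel] at h
  -- h : a (t+1) (m' (m'+1)) = N' (N'+1)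
  have h1 : (t + 1) * (4 * a * m') * (m' + 1) = (t + 2) * ((t + 2) * (m' + 1) - 2) * (m' + 1) := by
    have h2 : (t + 2) * (m' + 1) - 2 = 2 * N' := by omega
    rw [h2]
    have h3 : (t + 2) * (m' + 1) = 2 * (N' + 1) := by omega
    have h4 : 4 * (a * (t + 1) * (m' * (m' + 1))) = 4 * (N' * (N' + 1)) := by rw [h]
    calc (t + 1) * (4 * a * m') * (m' + 1) = 4 * (a * (t + 1) * (m' * (m' + 1))) := by ring
      _ = 4 * (N' * (N' + 1)) := h4
      _ = (2 * (N' + 1)) * (2 * N') := by ring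
      _ = ((t + 2) * (m' + 1)) * (2 * N') := by rw [h3]
      _ = (t + 2) * (2 * N') * (m' + 1) := by ring
  have h2 := Nat.eq_of_mul_eq_mul_right (by omega : 0 < m' + 1) h1
  have h3 : (t + 1) ∣ (m' - 1) := by
    have h4 : (t + 1) * (4 * a * m') = (t + 1) * ((t + 1) * (m' + 1) + 2 * m') + (m' - 1) := by
      rw [h2]
      obtain ⟨m'', rfl⟩ : ∃ m'', m' = m'' + 1 := ⟨m' - 1, by omega⟩
      have e1 : (t + 2) * (m'' + 1 + 1) - 2 = (t + 2) * m'' + 2 * t + 2 := by
        have : (t + 2) * (m'' + 1 + 1) = (t + 2) * m'' + 2 * t + 4 := by ring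
        omega
      rw [e1]
      simp only [Nat.add_sub_cancel]
      ring
    exact (Nat.dvd_add_right (Dvd.intro _ rfl)).mp (h4 ▸ Dvd.intro _ rfl)
  have := Nat.le_of_dvd (by omega) h3
  omega

theorem arith_final (t s m w N M a : ℕ) (hM : M + 2 = m + s) (hN : N + 1 = M + w)
    (hroot : w * s = t * M + s) (hnoda : m * (t + s) + 4 ≤ 2 * w + 2 * (t + s))
    (hm : 5 ≤ m) (hs : 2 ≤ s) (ha : a * (t + 1) * M.choose s = N.choose s)
    (hc : 5 ≤ t → Chain a M N) : False := by
  have hd := choose_df a t M N s ha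
  have hNs : N * s = (t + s) * M := by
    have : (N + 1) * s = (M + w) * s := by rw [hN]
    nlinarith
  -- main inequality
  have hkey : (t : ℤ) * (4 - ((s : ℤ) - 2) * ((m : ℤ) - 4)) ≥ (s : ℤ) ^ 2 * ((m : ℤ) - 2) + 2 * s := by
    have e1 : (M : ℤ) = m + s - 2 := by omega
    have e2 : (w : ℤ) * s = t * M + s := by exact_mod_cast hroot
    have e3 : (m : ℤ) * (t + s) + 4 ≤ 2 * w + 2 * (t + s) := by exact_mod_cast hnoda
    have hs0 : (0 : ℤ) ≤ s := by positivity
    have e4 := mul_le_mul_of_nonneg_left e3 hs0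
    rw [e1] at e2
    nlinarith
  have hprod : ((s : ℤ) - 2) * ((m : ℤ) - 4) < 4 := by
    by_contra hcon
    push Not at hcon
    have h1 : (t : ℤ) * (4 - ((s : ℤ) - 2) * ((m : ℤ) - 4)) ≤ 0 :=
      mul_nonpos_of_nonneg_of_nonpos (by positivity) (by linarith)
    have h2 : (0 : ℤ) < (s : ℤ) ^ 2 * ((m : ℤ) - 2) + 2 * s := by
      have : (5 : ℤ) ≤ m := by exact_mod_cast hm
      have : (2 : ℤ) ≤ s := by exact_mod_cast hs
      nlinarith [sq_nonneg (s : ℤ)]
    linarith
  have hm' : (5 : ℤ) ≤ m := by exact_mod_cast hm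
  have hs' : (2 : ℤ) ≤ s := by exact_mod_cast hs
  rcases Nat.lt_or_ge s 3 with hs3 | hs3
  · have hs2 : s = 2 := by omega
    subst hs2
    have hMm : M = m := by omega
    subst hMm
    refine case_two a t M N hm hNs ?_ hd
    push_cast at hkey
    have : (M : ℤ) ≤ t + 1 := by nlinarith
    exact_mod_cast this
  · have hs3' : (3 : ℤ) ≤ s := by exact_mod_cast hs3
    have hm7 : m ≤ 7 := by
      by_contra hcon
      push Not at hcon
      have : (8 : ℤ) ≤ m := by exact_mod_cast hcon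
      nlinarith
    have hs5 : s ≤ 5 := by
      by_contra hcon
      push Not at hcon
      have : (6 : ℤ) ≤ s := by exact_mod_cast hcon
      nlinarith
    interval_cases m
    · interval_cases s
      · have hM6 : M = 6 := by omega
        subst hM6
        push_cast at hkey
        exact case53 a t N (by linarith) (by omega) hd
      · have hM6 : M = 7 := by omega
        subst hM6
        push_cast at hkey
        exact case54 a t N (by linarith) (by omega) hd (hc (by omega))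
      · have hM6 : M = 8 := by omega
        subst hM6
        push_cast at hkey
        exact case55 a t N (by linarith) (by omega) hd (hc (by omega))
    · interval_cases s
      · have hM6 : M = 7 := by omega
        subst hM6
        push_cast at hkey
        exact case63 a t N (by linarith) (by omega) hd (hc (by omega))
      · norm_num at hprod
      · norm_num at hprod
    · interval_cases s
      · have hM6 : M = 8 := by omega
        subst hM6
        push_cast at hkey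
        exact case73 a t N (by linarith) (by omega) hd (hc (by omega))
      · norm_num at hprod
      · norm_num at hprod

end Pool.Agent.MP_1e96f1_co
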