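import Mathlib
import Pool.Agent.MP_1e96f1_co.Count

namespace Pool.Agent.MP_1e96f1_co

open Finset

variable {Ω : Type*} [Fintype Ω] [DecidableEq Ω]

omit [Fintype Ω] [DecidableEq Ω] in
lemma swap_sum {α β : Type*} (S : Finset α) (R : Finset β) (P : α → β → Prop)
    [∀ a b, Decidable (P a b)] :
    ∑ a ∈ S, (R.filter (fun b => P a b)).card = ∑ b ∈ R, (S.filter (fun a => P a b)).card := by
  simp only [Finset.card_filter]
  exact Finset.sum_comm

/-- number of blocks containing `T` -/
def lam (Bs : Finset (Finset Ω)) (T : Finset Ω) : ℕ := (Bs.filter (fun B => T ⊆ B)).card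

/-- number of blocks missing exactly one point of `T` -/
def miss (Bs : Finset (Finset Ω)) (T : Finset Ω) : ℕ :=
  (Bs.filter (fun B => (T \ B).card = 1)).card

omit [Fintype Ω] in
lemma sum_erase (Bs : Finset (Finset Ω)) (T : Finset Ω) :
    ∑ x ∈ T, lam Bs (T.erase x) = T.card * lam Bs T + miss Bs T := by
  unfold lam miss
  have h1 : ∑ x ∈ T, (Bs.filter (fun B => T.erase x ⊆ B)).card =
      ∑ B ∈ Bs, (T.filter (fun x => T.erase x ⊆ B)).card :=
    Finset.sum_card_bipartiteAbove_eq_sum_card_bipartiteBelow (fun x B => T.erase x ⊆ B)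
  rw [h1]
  have h2 : ∀ B ∈ Bs, (T.filter (fun x => T.erase x ⊆ B)).card =
      (if T ⊆ B then T.card else 0) + (if (T \ B).card = 1 then 1 else 0) := by
    intro B _
    by_cases hTB : T ⊆ B
    · have h3 : T \ B = ∅ := Finset.sdiff_eq_empty_iff_subset.mpr hTB
      rw [if_pos hTB, h3]
      simp only [Finset.card_empty, zero_ne_one, if_false, add_zero]
      congr 1
      rw [Finset.filter_eq_self]
      intro x _
      exact (Finset.erase_subset _ _).trans hTB
    · rw [if_neg hTB]
      by_cases h4 : (T \ B).card = 1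
      · rw [if_pos h4]
        obtain ⟨y, hy⟩ := Finset.card_eq_one.mp h4
        have hyT : y ∈ T ∧ y ∉ B := by
          rw [← Finset.mem_sdiff, hy]; simp
        have : T.filter (fun x => T.erase x ⊆ B) = {y} := by
          ext x
          simp only [Finset.mem_filter, Finset.mem_singleton]
          constructor
          · rintro ⟨hx, hsub⟩
            by_contra hne
            exact hyT.2 (hsub (Finset.mem_erase.mpr ⟨fun h => hne h.symm, hyT.1⟩))
          · rintro rfl
            refine ⟨hyT.1, fun z hz => ?_⟩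
            rw [Finset.mem_erase] at hz
            by_contra hzB
            have : z ∈ T \ B := Finset.mem_sdiff.mpr ⟨hz.2, hzB⟩
            rw [hy, Finset.mem_singleton] at this
            exact hz.1 this
        rw [this]; simp
      · rw [if_neg h4, Nat.add_zero, Finset.card_eq_zero, Finset.filter_eq_empty_iff]
        intro x hx hsub
        have h5 : T \ B ⊆ {x} := by
          intro z hz
          rw [Finset.mem_sdiff] at hz
          rw [Finset.mem_singleton]
          by_contra hne
          exact hz.2 (hsub (Finset.mem_erase.mpr ⟨hne, hz.1⟩))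
        have h6 := Finset.card_le_card h5
        rw [Finset.card_singleton] at h6
        have h7 : (T \ B).card ≠ 0 := by
          rw [Finset.card_ne_zero]
          exact Finset.sdiff_nonempty.mpr hTB
        omega
  rw [Finset.sum_congr rfl h2, Finset.sum_add_distrib, ← Finset.sum_filter, ← Finset.sum_filter]
  simp [mul_comm]

lemma sum_insert (Bs : Finset (Finset Ω)) {k : ℕ} (hk : ∀ B ∈ Bs, B.card = k) (J : Finset Ω) :
    ∑ x ∈ Jᶜ, lam Bs (insert x J) = lam Bs J * (k - J.card) := by
  unfold lam
  have h1 : ∑ x ∈ Jᶜ, (Bs.filter (fun B => insert x J ⊆ B)).card =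
      ∑ B ∈ Bs, (Jᶜ.filter (fun x => insert x J ⊆ B)).card :=
    Finset.sum_card_bipartiteAbove_eq_sum_card_bipartiteBelow (fun x B => insert x J ⊆ B)
  rw [h1]
  have h2 : ∀ B ∈ Bs, (Jᶜ.filter (fun x => insert x J ⊆ B)).card =
      (if J ⊆ B then k - J.card else 0) := by
    intro B hB
    by_cases hJB : J ⊆ B
    · rw [if_pos hJB, ← hk B hB, ← Finset.card_sdiff_of_subset hJB]
      congr 1
      ext x
      simp only [Finset.mem_filter, Finset.mem_compl, Finset.mem_sdiff, Finset.insert_subset_iff]
      tauto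
    · rw [if_neg hJB, Finset.card_eq_zero, Finset.filter_eq_empty_iff]
      intro x _ h
      exact hJB ((Finset.subset_insert _ _).trans h)
  rw [Finset.sum_congr rfl h2, ← Finset.sum_filter]
  simp

/-- contribution of one block to the basic equation -/
lemma block_count {v k d : ℕ} (hv : Fintype.card Ω = v) (B : Finset Ω) (hcard : B.card = k)
    (T : Finset Ω) (hT : T.card ≤ d + 2) :
    ((univ : Finset (Finset Ω)).filter
        (fun X => T ⊆ X ∧ X.card = (d + 2) + 1 ∧ d + 2 ≤ (X ∩ B).card)).card =
      (if T ⊆ B then ((k - T.card).choose (d + 3 - T.card) +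
        (k - T.card).choose (d + 2 - T.card) * (v - k)) else 0) +
      (if (T \ B).card = 1 then (k - (T.card - 1)).choose (d + 3 - T.card) else 0) := by
  rw [sup_two]
  have hsplit := Finset.card_inter_add_card_sdiff T B
  have hcompl : Bᶜ.card = v - k := by
    rw [Finset.card_compl, hv, hcard]
  by_cases hTB : T ⊆ B
  · have h4 : T \ B = ∅ := Finset.sdiff_eq_empty_iff_subset.mpr hTB
    have h5 : T ∩ B = T := Finset.inter_eq_left.mpr hTB
    have h6 : (T \ B).card = 0 := by rw [h4, Finset.card_empty]
    have h7 : (T ∩ B).card = T.card := by rw [h5]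
    rw [if_pos hTB, cnt_eq B T (d + 2 + 1) 0 (by rw [h7]; omega) (by rw [h6]),
      cnt_eq B T (d + 2) 1 (by rw [h7]; omega) (by rw [h6]; omega), h7, h6, hcard, hcompl,
      if_neg (by omega)]
    simp only [Nat.sub_zero, Nat.choose_zero_right, Nat.choose_one_right, mul_one, add_zero]
  · rw [if_neg hTB]
    have h7 : (T \ B).card ≠ 0 := by
      rw [Finset.card_ne_zero]
      exact Finset.sdiff_nonempty.mpr hTB
    rw [cnt_zero B T (d + 2 + 1) 0 (by omega)]
    by_cases h8 : (T \ B).card = 1
    · rw [if_pos h8, cnt_eq B T (d + 2) 1 (by omega) (by omega), h8, hcard]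
      have h9 : (T ∩ B).card = T.card - 1 := by omega
      rw [h9]
      have h10 : d + 2 - (T.card - 1) = d + 3 - T.card := by omega
      rw [h10]
      simp only [Nat.sub_self, Nat.choose_zero_right, mul_one]
    · rw [if_neg h8, cnt_zero B T (d + 2) 1 (by omega)]

omit [Fintype Ω] in
lemma unique_count {Bs : Finset (Finset Ω)} {v d : ℕ}
    (hB : IsBeta Bs v d 2) (X : Finset Ω) (hX : X.card = d + 3) :
    (Bs.filter (fun B => d + 2 ≤ (X ∩ B).card)).card = 1 := by
  obtain ⟨-, hn, hex⟩ := hB
  obtain ⟨B, ⟨hBB, hBX⟩, huniq⟩ := hex X (by omega)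
  rw [Finset.card_eq_one]
  refine ⟨B, ?_⟩
  ext C
  simp only [Finset.mem_filter, Finset.mem_singleton]
  constructor
  · rintro ⟨h2, h3⟩
    exact huniq C ⟨h2, h3⟩
  · rintro rfl
    exact ⟨hBB, hBX⟩

/-- the basic equation of a `β(2)` design at a `t`-subset -/
lemma beta_two_count {Bs : Finset (Finset Ω)} {v k d : ℕ} (hD : IsDesign Bs v k d)
    (hB : IsBeta Bs v d 2) (T : Finset Ω) (hT : T.card ≤ d + 2) :
    (v - T.card).choose (d + 3 - T.card) =
      lam Bs T * ((k - T.card).choose (d + 3 - T.card) +
        (k - T.card).choose (d + 2 - T.card) * (v - k)) +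
      miss Bs T * (k - (T.card - 1)).choose (d + 3 - T.card) := by
  have hall := sup_all T (d + 3) (by omega)
  rw [hD.card_points] at hall
  rw [← hall]
  set S := (univ : Finset (Finset Ω)).filter (fun X => T ⊆ X ∧ X.card = d + 3) with hS
  have h1 : S.card = ∑ X ∈ S, (Bs.filter (fun B => d + 2 ≤ (X ∩ B).card)).card := by
    rw [Finset.card_eq_sum_ones]
    refine Finset.sum_congr rfl fun X hX => ?_
    rw [hS, Finset.mem_filter] at hX
    exact (unique_count hB X hX.2.2).symm
  have hswap : ∑ X ∈ S, (Bs.filter (fun B => d + 2 ≤ (X ∩ B).card)).card =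
      ∑ B ∈ Bs, (S.filter (fun X => d + 2 ≤ (X ∩ B).card)).card :=
    swap_sum S Bs (fun X B => d + 2 ≤ (X ∩ B).card)
  rw [h1, hswap]
  have h2 : ∀ B ∈ Bs, (S.filter (fun X => d + 2 ≤ (X ∩ B).card)).card =
      (if T ⊆ B then ((k - T.card).choose (d + 3 - T.card) +
        (k - T.card).choose (d + 2 - T.card) * (v - k)) else 0) +
      (if (T \ B).card = 1 then (k - (T.card - 1)).choose (d + 3 - T.card) else 0) := by
    intro B hBB
    rw [← block_count hD.card_points B (hD.card_block B hBB) T hT, hS, Finset.filter_filter]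
    congr 1
    ext X
    simp only [Finset.mem_filter, Finset.mem_univ, true_and]
    tauto
  rw [Finset.sum_congr rfl h2, Finset.sum_add_distrib, ← Finset.sum_filter, ← Finset.sum_filter,
    Finset.sum_const, Finset.sum_const, smul_eq_mul, smul_eq_mul]
  rfl

end Pool.Agent.MP_1e96f1_co
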