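import Mathlib
import Pool.Agent.MP_1e96f1_co.Strength
import Pool.Agent.MP_1e96f1_co.Arith

namespace Pool.Agent.MP_1e96f1_co

open Finset

variable {Ω : Type*} [Fintype Ω] [DecidableEq Ω]

lemma design_facts {Bs : Finset (Finset Ω)} {v k d : ℕ} (hD : IsDesign Bs v k d) :
    d < k ∧ 2 * k ≤ v + d := by
  obtain ⟨B, hB, C, hC, hne, hd⟩ := hD.inter_eq
  have hBk := hD.card_block B hB
  have hCk := hD.card_block C hC
  constructor
  · by_contra hcon
    push Not at hcon
    have h1 : (B ∩ C).card = B.card := by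
      apply le_antisymm (Finset.card_le_card Finset.inter_subset_left)
      omega
    have h2 : B ∩ C = B := Finset.eq_of_subset_of_card_le Finset.inter_subset_left h1.ge
    have h3 : B ⊆ C := Finset.inter_eq_left.mp h2
    exact hne (Finset.eq_of_subset_of_card_le h3 (by omega))
  · have h1 := Finset.card_union_add_card_inter B C
    have h2 := Finset.card_le_univ (B ∪ C)
    rw [hD.card_points] at h2
    omega

lemma step_const {Bs : Finset (Finset Ω)} {v k d : ℕ} (hD : IsDesign Bs v k d)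
    (hB : IsBeta Bs v d 2) (hk : d + 2 ≤ k) {t : ℕ} (ht1 : 1 ≤ t) (htd : t ≤ d + 1) {L : ℕ}
    (hL : ∀ J : Finset Ω, J.card = t - 1 → lam Bs J = L)
    (hne : t * (v + 1 - t) ≠ (v - k) * (d + 3) + (k - d - 2)) :
    ∀ T T' : Finset Ω, T.card = t → T'.card = t → lam Bs T = lam Bs T' := by
  obtain ⟨hdk, hkv⟩ := design_facts hD
  intro T T' hT hT'
  have hm : ∀ T : Finset Ω, T.card = t → t * L = t * lam Bs T + miss Bs T := by
    intro T hT
    rw [← hT, ← sum_erase, Finset.sum_congr rfl (g := fun _ => L), Finset.sum_const, smul_eq_mul]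
    intro x hx
    apply hL
    rw [Finset.card_erase_of_mem hx, hT]
  have h1 := beta_two_count hD hB T (by omega)
  have h2 := beta_two_count hD hB T' (by omega)
  rw [hT] at h1
  rw [hT'] at h2
  have hR : (k - (t - 1)).choose (d + 3 - t) =
      (k - t).choose (d + 2 - t) + (k - t).choose (d + 3 - t) := by
    rw [show k - (t - 1) = (k - t) + 1 by omega, show d + 3 - t = (d + 2 - t) + 1 by omega]
    exact Nat.choose_succ_succ _ _
  have hP : (k - t).choose (d + 3 - t) * (d + 3 - t) = (k - t).choose (d + 2 - t) * (k - d - 2) := by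
    have := Nat.choose_succ_right_eq (k - t) (d + 2 - t)
    rw [show d + 2 - t + 1 = d + 3 - t by omega, show k - t - (d + 2 - t) = k - d - 2 by omega] at this
    exact this
  have hQ : 0 < (k - t).choose (d + 2 - t) := Nat.choose_pos (by omega)
  rw [hR] at h1 h2
  have hmT := hm T hT
  have hmT' := hm T' hT'
  set P := (k - t).choose (d + 3 - t)
  set Q := (k - t).choose (d + 2 - t)
  set a := lam Bs T
  set a' := lam Bs T'
  by_contra haa
  -- move to integers
  obtain ⟨m2, hm2⟩ : ∃ m2 : ℕ, k = d + 2 + m2 := ⟨k - d - 2, by omega⟩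
  obtain ⟨w, hw⟩ : ∃ w : ℕ, v = k + w := ⟨v - k, by omega⟩
  obtain ⟨g, hg⟩ : ∃ g : ℕ, d + 2 = t + g := ⟨d + 2 - t, by omega⟩
  have e1 : k - d - 2 = m2 := by omega
  have e2 : v - k = w := by omega
  have e3 : d + 3 - t = g + 1 := by omega
  rw [e1, e3] at hP
  rw [e2] at h1 h2
  rw [h1] at h2
  have h3 : ((a : ℤ) - a') * ((P + Q * w) - t * (Q + P)) = 0 := by
    have h2' : (a : ℤ) * (P + Q * w) + miss Bs T * (Q + P) =
        a' * (P + Q * w) + miss Bs T' * (Q + P) := by exact_mod_cast h2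
    have m1 : (t : ℤ) * L = t * a + miss Bs T := by exact_mod_cast hmT
    have m2 : (t : ℤ) * L = t * a' + miss Bs T' := by exact_mod_cast hmT'
    have m1' : (miss Bs T : ℤ) = t * L - t * a := by linarith
    have m2' : (miss Bs T' : ℤ) = t * L - t * a' := by linarith
    rw [m1', m2'] at h2'
    linear_combination h2'
  have h4 : ((P : ℤ) + Q * w) - t * (Q + P) = 0 := by
    rcases mul_eq_zero.mp h3 with h | h
    · exfalso
      apply haa
      have : (a : ℤ) = a' := by linarith
      exact_mod_cast this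
    · exact h
  have hP' : (P : ℤ) * (g + 1) = Q * m2 := by exact_mod_cast hP
  have h5 : (Q : ℤ) * ((m2 + (g + 1) * w) - t * (g + 1 + m2)) = 0 := by
    linear_combination (g + 1 : ℤ) * h4 + (t - 1 : ℤ) * hP'
  have h6 : ((m2 : ℤ) + (g + 1) * w) - t * (g + 1 + m2) = 0 := by
    rcases mul_eq_zero.mp h5 with h | h
    · exfalso
      have : (0 : ℤ) < Q := by exact_mod_cast hQ
      omega
    · exact h
  apply hne
  rw [e1, e2]
  have e4 : v + 1 - t = g + m2 + w + 1 := by omega
  rw [e4]
  have hgz : (d : ℤ) + 2 = t + g := by exact_mod_cast hg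
  have : (t : ℤ) * (g + m2 + w + 1) = w * (d + 3) + m2 := by
    linear_combination (-1 : ℤ) * h6 - (w : ℤ) * hgz
  exact_mod_cast this

lemma rel {Bs : Finset (Finset Ω)} {v k d : ℕ} (hD : IsDesign Bs v k d) {j : ℕ} {L L' : ℕ}
    (hj : j + 1 ≤ v) (hL' : ∀ J : Finset Ω, J.card = j → lam Bs J = L')
    (hL : ∀ J : Finset Ω, J.card = j + 1 → lam Bs J = L) :
    L' * (k - j) = L * (v - j) := by
  obtain ⟨J, -, hJ⟩ := Finset.exists_subset_card_eq (s := (univ : Finset Ω)) (n := j)
    (by rw [Finset.card_univ, hD.card_points]; omega)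
  have h := sum_insert Bs hD.card_block J
  rw [hL' J hJ, hJ] at h
  rw [← h, Finset.sum_congr rfl (g := fun _ => L), Finset.sum_const, smul_eq_mul,
    Finset.card_compl, hD.card_points, hJ, mul_comm]
  intro x hx
  apply hL
  rw [Finset.card_insert_of_notMem (Finset.mem_compl.mp hx), hJ]

lemma block_three {v k d : ℕ} (hv : Fintype.card Ω = v) (B : Finset Ω) (hcard : B.card = k) :
    ((univ : Finset (Finset Ω)).filter
        (fun X => ∅ ⊆ X ∧ X.card = (d + 3) + 2 ∧ d + 3 ≤ (X ∩ B).card)).card =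
      k.choose (d + 5) + k.choose (d + 4) * (v - k) + k.choose (d + 3) * (v - k).choose 2 := by
  rw [sup_three]
  have hcompl : Bᶜ.card = v - k := by
    rw [Finset.card_compl, hv, hcard]
  rw [cnt_eq B ∅ (d + 3 + 2) 0 (by simp) (by simp), cnt_eq B ∅ (d + 3 + 1) 1 (by simp) (by simp),
    cnt_eq B ∅ (d + 3) 2 (by simp) (by simp)]
  simp [hcompl, hcard]

/-- Noda's lower bound for `β(2)` designs -/
lemma noda {Bs : Finset (Finset Ω)} {v k d : ℕ} (hD : IsDesign Bs v k d)
    (hB : IsBeta Bs v d 2) (hk : d + 5 ≤ k) :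
    (k - d) * (d + 2) ≤ 2 * (v - k) + 2 * d := by
  obtain ⟨hdk, hkv⟩ := design_facts hD
  -- equality for two
  have h0 := beta_two_count hD hB ∅ (by simp)
  have hmiss : miss Bs (∅ : Finset Ω) = 0 := by simp [miss]
  have hlam : lam Bs (∅ : Finset Ω) = Bs.card := by simp [lam]
  rw [hmiss, hlam] at h0
  simp only [Finset.card_empty, Nat.sub_zero, zero_mul, add_zero] at h0
  -- inequality for three
  have hall := sup_all (∅ : Finset Ω) (d + 5) (by simp)
  rw [hD.card_points] at hall
  simp only [Finset.card_empty, Nat.sub_zero] at hall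
  set S := (univ : Finset (Finset Ω)).filter (fun X => ∅ ⊆ X ∧ X.card = d + 5) with hS
  have h1 : ∑ X ∈ S, (Bs.filter (fun B => d + 3 ≤ (X ∩ B).card)).card ≤ S.card := by
    rw [Finset.card_eq_sum_ones]
    refine Finset.sum_le_sum fun X hX => ?_
    rw [hS, Finset.mem_filter] at hX
    rw [Finset.card_le_one]
    intro B hB1 C hC1
    rw [Finset.mem_filter] at hB1 hC1
    by_contra hne
    have h2 := hD.inter_le B hB1.1 C hC1.1 hne
    have h3 := Finset.card_union_add_card_inter (X ∩ B) (X ∩ C)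
    have h4 : (X ∩ B) ∪ (X ∩ C) ⊆ X :=
      Finset.union_subset Finset.inter_subset_left Finset.inter_subset_left
    have h5 := Finset.card_le_card h4
    have h6 : (X ∩ B) ∩ (X ∩ C) ⊆ B ∩ C := by
      intro x hx
      simp only [Finset.mem_inter] at hx ⊢
      tauto
    have h7 := Finset.card_le_card h6
    omega
  have hswap : ∑ X ∈ S, (Bs.filter (fun B => d + 3 ≤ (X ∩ B).card)).card =
      ∑ B ∈ Bs, (S.filter (fun X => d + 3 ≤ (X ∩ B).card)).card :=
    swap_sum S Bs (fun X B => d + 3 ≤ (X ∩ B).card)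
  have h2 : ∀ B ∈ Bs, (S.filter (fun X => d + 3 ≤ (X ∩ B).card)).card =
      k.choose (d + 5) + k.choose (d + 4) * (v - k) + k.choose (d + 3) * (v - k).choose 2 := by
    intro B hBB
    rw [← block_three hD.card_points B (hD.card_block B hBB) (d := d), hS, Finset.filter_filter]
    congr 1
    ext X
    simp only [Finset.mem_filter, Finset.mem_univ, true_and]
    tauto
  rw [hswap, Finset.sum_congr rfl h2, Finset.sum_const, smul_eq_mul, hall] at h1
  -- arithmetic
  obtain ⟨m, hm⟩ : ∃ m : ℕ, k = d + (m + 5) := ⟨k - d - 5, by omega⟩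
  obtain ⟨w, hw⟩ : ∃ w : ℕ, v = k + (w + 2) := ⟨v - k - 2, by omega⟩
  have c3 : k.choose (d + 3) * (d + 3) = k.choose (d + 2) * (m + 3) := by
    have := Nat.choose_succ_right_eq k (d + 2)
    rw [show k - (d + 2) = m + 3 by omega] at this
    exact this
  have c4 : k.choose (d + 4) * (d + 4) = k.choose (d + 3) * (m + 2) := by
    have := Nat.choose_succ_right_eq k (d + 3)
    rw [show k - (d + 3) = m + 2 by omega] at this
    exact this
  have c5 : k.choose (d + 5) * (d + 5) = k.choose (d + 4) * (m + 1) := by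
    have := Nat.choose_succ_right_eq k (d + 4)
    rw [show k - (d + 4) = m + 1 by omega] at this
    exact this
  have v4 : v.choose (d + 4) * (d + 4) = v.choose (d + 3) * (m + w + 4) := by
    have := Nat.choose_succ_right_eq v (d + 3)
    rw [show v - (d + 3) = m + w + 4 by omega] at this
    exact this
  have v5 : v.choose (d + 5) * (d + 5) = v.choose (d + 4) * (m + w + 3) := by
    have := Nat.choose_succ_right_eq v (d + 4)
    rw [show v - (d + 4) = m + w + 3 by omega] at this
    exact this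
  have hvk : v - k = w + 2 := by omega
  have w2 : (w + 2).choose 2 * 2 = (w + 2) * (w + 1) := by
    have := Nat.choose_succ_right_eq (w + 2) 1
    rw [Nat.choose_one_right] at this
    simpa using this
  rw [hvk] at h0 h1 ⊢
  rw [show k - d = m + 5 by omega]
  have hK : 0 < k.choose (d + 2) := Nat.choose_pos (by omega)
  have hb : 0 < Bs.card := by have := hD.two_le; omega
  set K := k.choose (d + 2)
  set C3 := k.choose (d + 3)
  set C4 := k.choose (d + 4)
  set C5 := k.choose (d + 5)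
  set V3 := v.choose (d + 3)
  set V4 := v.choose (d + 4)
  set V5 := v.choose (d + 5)
  set W2 := (w + 2).choose 2
  set b := Bs.card
  by_contra hcon
  push Not at hcon
  -- cast to ℤ
  have z0 : (V3 : ℤ) = b * (C3 + K * (w + 2)) := by exact_mod_cast h0
  have z1 : (b : ℤ) * (C5 + C4 * (w + 2) + C3 * W2) ≤ V5 := by exact_mod_cast h1
  have zc3 : (C3 : ℤ) * (d + 3) = K * (m + 3) := by exact_mod_cast c3
  have zc4 : (C4 : ℤ) * (d + 4) = C3 * (m + 2) := by exact_mod_cast c4
  have zc5 : (C5 : ℤ) * (d + 5) = C4 * (m + 1) := by exact_mod_cast c5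
  have zv4 : (V4 : ℤ) * (d + 4) = V3 * (m + w + 4) := by exact_mod_cast v4
  have zv5 : (V5 : ℤ) * (d + 5) = V4 * (m + w + 3) := by exact_mod_cast v5
  have zw2 : (W2 : ℤ) * 2 = (w + 2) * (w + 1) := by exact_mod_cast w2
  have zcon : (2 : ℤ) * (w + 2) + 2 * d < (m + 5) * (d + 2) := by exact_mod_cast hcon
  have hmul : (2 * (d + 3) * (d + 4) * (d + 5) : ℤ) * (b * (C5 + C4 * (w + 2) + C3 * W2)) ≤
      (2 * (d + 3) * (d + 4) * (d + 5) : ℤ) * V5 := by
    apply mul_le_mul_of_nonneg_left z1; positivity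
  have hL : (2 * (d + 3) * (d + 4) * (d + 5) : ℤ) * (b * (C5 + C4 * (w + 2) + C3 * W2)) =
      b * K * (m + 3) * (2 * (m + 2) * (m + 1) + 2 * (d + 5) * (m + 2) * (w + 2) +
        (d + 5) * (d + 4) * ((w + 2) * (w + 1))) := by
    linear_combination (2 * (d + 3) * (d + 4) * b : ℤ) * zc5 +
      (2 * (d + 3) * b * (m + 1) + 2 * (d + 3) * (d + 5) * b * (w + 2) : ℤ) * zc4 +
      (2 * b * (m + 1) * (m + 2) + 2 * (d + 5) * b * (w + 2) * (m + 2) +
        (d + 4) * (d + 5) * b * (2 * W2) : ℤ) * zc3 +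
      (b * K * (m + 3) * (d + 5) * (d + 4) : ℤ) * zw2
  have hR : (2 * (d + 3) * (d + 4) * (d + 5) : ℤ) * V5 =
      2 * b * K * ((m + 3) + (d + 3) * (w + 2)) * (m + w + 4) * (m + w + 3) := by
    linear_combination (2 * (d + 3) * (d + 4) : ℤ) * zv5 +
      (2 * (d + 3) * (m + w + 3) : ℤ) * zv4 +
      (2 * (d + 3) * (m + w + 3) * (m + w + 4) : ℤ) * z0 +
      (2 * (m + w + 3) * (m + w + 4) * b : ℤ) * zc3
  rw [hL, hR] at hmul
  have hbK : (0 : ℤ) < b * K := by
    have h1 : (0 : ℤ) < b := by exact_mod_cast hb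
    have h2 : (0 : ℤ) < K := by exact_mod_cast hK
    positivity
  have hfin : (b * K : ℤ) * ((d + 3) * (w + 2) * (w + 1) *
      (2 * (w + 2) + 2 * d - (m + 5) * (d + 2))) ≥ 0 := by
    have : (b * K : ℤ) * ((d + 3) * (w + 2) * (w + 1) *
      (2 * (w + 2) + 2 * d - (m + 5) * (d + 2))) =
      2 * b * K * ((m + 3) + (d + 3) * (w + 2)) * (m + w + 4) * (m + w + 3) -
      b * K * (m + 3) * (2 * (m + 2) * (m + 1) + 2 * (d + 5) * (m + 2) * (w + 2) +
        (d + 5) * (d + 4) * ((w + 2) * (w + 1))) := by ring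
    rw [this]; linarith
  have hneg : (b * K : ℤ) * ((d + 3) * (w + 2) * (w + 1) *
      (2 * (w + 2) + 2 * d - (m + 5) * (d + 2))) < 0 := by
    apply mul_neg_of_pos_of_neg hbK
    apply mul_neg_of_pos_of_neg
    · positivity
    · linarith
  linarith

end Pool.Agent.MP_1e96f1_co
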