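import Mathlib
import Pool.Agent.MP_1e96f1_co.Main

namespace Pool.Agent.MP_1e96f1_co

open Finset

variable {Ω : Type*} [Fintype Ω] [DecidableEq Ω]

/-- value of `lam` at the maximal strength -/
lemma lam_top {Bs : Finset (Finset Ω)} {v k d : ℕ} (hD : IsDesign Bs v k d)
    (hB : IsBeta Bs v d 2) (hk : d + 2 ≤ k) {t : ℕ} (ht : t ≤ d) {a : ℕ}
    (hconst : ∀ j ≤ t, ∃ L : ℕ, ∀ T : Finset Ω, T.card = j → lam Bs T = L)
    (ha : ∀ T : Finset Ω, T.card = t → lam Bs T = a)
    (hroot : (t + 1) * (v - t) = (v - k) * (d + 3) + (k - d - 2)) :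
    a * (t + 1) * (k - t).choose (d + 2 - t) = (v - t - 1).choose (d + 2 - t) := by
  obtain ⟨hdk, hkv⟩ := design_facts hD
  obtain ⟨T, -, hT⟩ := Finset.exists_subset_card_eq (s := (univ : Finset Ω)) (n := t)
    (by rw [Finset.card_univ, hD.card_points]; omega)
  have h1 := beta_two_count hD hB T (by omega)
  rw [hT, ha T hT] at h1
  obtain ⟨m2, hm2⟩ : ∃ m2 : ℕ, k = d + 2 + m2 := ⟨k - d - 2, by omega⟩
  obtain ⟨w, hw⟩ : ∃ w : ℕ, v = k + w := ⟨v - k, by omega⟩
  obtain ⟨g, hg⟩ : ∃ g : ℕ, d + 2 = t + g := ⟨d + 2 - t, by omega⟩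
  have e1 : k - d - 2 = m2 := by omega
  have e2 : v - k = w := by omega
  have e3 : d + 3 - t = g + 1 := by omega
  have e4 : d + 2 - t = g := by omega
  rw [e1, e2] at hroot
  rw [e2, e3, e4] at h1
  rw [e4]
  set Q := (k - t).choose g with hQdef
  set P := (k - t).choose (g + 1) with hPdef
  set R := (k - (t - 1)).choose (g + 1) with hRdef
  have hQ : 0 < Q := Nat.choose_pos (by omega)
  have hP : P * (g + 1) = Q * m2 := by
    have := Nat.choose_succ_right_eq (k - t) g
    rw [show k - t - g = m2 by omega] at this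
    exact this
  have hV : (v - t).choose (g + 1) * (g + 1) = (v - t) * (v - t - 1).choose g := by
    have := Nat.add_one_mul_choose_eq (v - t - 1) g
    rw [show v - t - 1 + 1 = v - t by omega] at this
    exact this.symm
  -- the miss term
  have hmiss : miss Bs T * R * (g + 1) = t * a * w * Q := by
    rcases Nat.eq_zero_or_pos t with h0 | hpos
    · have : T = ∅ := Finset.card_eq_zero.mp (by omega)
      rw [this, h0]
      simp [miss]
    · obtain ⟨L, hL⟩ := hconst (t - 1) (by omega)
      have h2 : t * L = t * a + miss Bs T := by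
        rw [← ha T hT, ← hT, ← sum_erase, Finset.sum_congr rfl (g := fun _ => L),
          Finset.sum_const, smul_eq_mul]
        intro x hx
        apply hL
        rw [Finset.card_erase_of_mem hx, hT]
      have h3 : L * (k - (t - 1)) = a * (v - (t - 1)) := by
        apply rel hD (j := t - 1) (by omega) hL
        intro J hJ
        apply ha
        omega
      have h4 : R * (g + 1) = (k - (t - 1)) * Q := by
        have := Nat.add_one_mul_choose_eq (k - t) g
        rw [show k - t + 1 = k - (t - 1) by omega] at this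
        exact this.symm
      have h5 : k - (t - 1) + w = v - (t - 1) := by omega
      have h6 : miss Bs T * (k - (t - 1)) = t * a * w := by
        have h7 : (t * a + miss Bs T) * (k - (t - 1)) = t * a * (k - (t - 1) + w) := by
          rw [← h2, h5, mul_assoc, h3]; ring
        have h8 : t * a * (k - (t - 1)) + miss Bs T * (k - (t - 1)) =
            t * a * (k - (t - 1)) + t * a * w := by
          calc t * a * (k - (t - 1)) + miss Bs T * (k - (t - 1)) =
              (t * a + miss Bs T) * (k - (t - 1)) := by ring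
            _ = t * a * (k - (t - 1) + w) := h7
            _ = _ := by ring
        exact Nat.add_left_cancel h8
      calc miss Bs T * R * (g + 1) = miss Bs T * (R * (g + 1)) := by ring
        _ = miss Bs T * (k - (t - 1)) * Q := by rw [h4]; ring
        _ = t * a * w * Q := by rw [h6]
  have hvt : 0 < v - t := by omega
  have hfin : (v - t) * (a * (t + 1) * Q) = (v - t) * (v - t - 1).choose g := by
    rw [← hV, h1]
    have h9 : (a * (P + Q * w) + miss Bs T * R) * (g + 1) =
        a * (P * (g + 1)) + a * Q * w * (g + 1) + miss Bs T * R * (g + 1) := by ring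
    rw [h9, hP, hmiss]
    have h10 : (t + 1) * (v - t) = w * (t + g + 1) + m2 := by
      rw [hroot]
      have : d + 3 = t + g + 1 := by omega
      rw [this]
    calc (v - t) * (a * (t + 1) * Q) = a * Q * ((t + 1) * (v - t)) := by ring
      _ = a * Q * (w * (t + g + 1) + m2) := by rw [h10]
      _ = _ := by ring
  exact Nat.eq_of_mul_eq_mul_left hvt hfin

/-- a `β(2)` design of strength `d + 1` is a Steiner system -/
lemma beta_one_of_strength {Bs : Finset (Finset Ω)} {v k d : ℕ} (hD : IsDesign Bs v k d)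
    {L : ℕ} (hL : ∀ T : Finset Ω, T.card = d + 1 → lam Bs T = L) : IsBeta Bs v d 1 := by
  obtain ⟨hdk, hkv⟩ := design_facts hD
  have hne : Bs.Nonempty := by
    rw [← Finset.card_pos]; have := hD.two_le; omega
  obtain ⟨B0, hB0⟩ := hne
  have hle : ∀ T : Finset Ω, T.card = d + 1 → lam Bs T ≤ 1 := by
    intro T hT
    unfold lam
    rw [Finset.card_le_one]
    intro B hB C hC
    rw [Finset.mem_filter] at hB hC
    by_contra hneq
    have h1 := hD.inter_le B hB.1 C hC.1 hneq
    have h2 := Finset.card_le_card (Finset.subset_inter hB.2 hC.2)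
    omega
  obtain ⟨T0, hT0B, hT0⟩ := Finset.exists_subset_card_eq (s := B0) (n := d + 1)
    (by rw [hD.card_block B0 hB0]; omega)
  have hL1 : L = 1 := by
    have h1 := hle T0 hT0
    have h2 := hL T0 hT0
    have h3 : 0 < lam Bs T0 := by
      unfold lam
      rw [Finset.card_pos]
      exact ⟨B0, Finset.mem_filter.mpr ⟨hB0, hT0B⟩⟩
    omega
  refine ⟨le_rfl, by omega, ?_⟩
  intro X hX
  have hX' : X.card = d + 1 := by omega
  have h1 := hL X hX'
  rw [hL1] at h1
  unfold lam at h1
  obtain ⟨B, hB⟩ := Finset.card_eq_one.mp h1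
  have hBm : B ∈ Bs.filter (fun B => X ⊆ B) := by rw [hB]; simp
  rw [Finset.mem_filter] at hBm
  refine ⟨B, ⟨hBm.1, ?_⟩, ?_⟩
  · rw [Finset.inter_eq_left.mpr hBm.2]; omega
  · rintro C ⟨hC, hXC⟩
    have h2 : X ∩ C = X := Finset.eq_of_subset_of_card_le Finset.inter_subset_left (by omega)
    have h3 : C ∈ Bs.filter (fun B => X ⊆ B) :=
      Finset.mem_filter.mpr ⟨hC, Finset.inter_eq_left.mp h2⟩
    rw [hB, Finset.mem_singleton] at h3
    exact h3

theorem beta_two_imp_one {Bs : Finset (Finset Ω)} {v k d : ℕ} (hD : IsDesign Bs v k d)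
    (hk : d + 5 ≤ k) (hB : IsBeta Bs v d 2) : IsBeta Bs v d 1 := by
  classical
  obtain ⟨hdk, hkv⟩ := design_facts hD
  by_cases hall : ∀ t ≤ d + 1, ∃ L : ℕ, ∀ T : Finset Ω, T.card = t → lam Bs T = L
  · obtain ⟨L, hL⟩ := hall (d + 1) le_rfl
    exact beta_one_of_strength hD hL
  exfalso
  push Not at hall
  have hex : ∃ t, t ≤ d + 1 ∧ ∀ L : ℕ, ∃ T : Finset Ω, T.card = t ∧ lam Bs T ≠ L := hall
  have hfind := Nat.find_spec hex
  have hmin := fun j (hj : j < Nat.find hex) => Nat.find_min hex hj
  set u := Nat.find hex with hu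
  have hconst : ∀ j < u, ∃ L : ℕ, ∀ T : Finset Ω, T.card = j → lam Bs T = L := by
    intro j hj
    have h1 := hmin j hj
    push Not at h1
    exact h1 (by omega)
  have hu1 : 1 ≤ u := by
    by_contra hcon
    have h0 : u = 0 := by omega
    obtain ⟨T, hT, hne⟩ := hfind.2 Bs.card
    rw [h0] at hT
    have : T = ∅ := Finset.card_eq_zero.mp hT
    rw [this] at hne
    exact hne (by simp [lam])
  obtain ⟨t, ht⟩ : ∃ t, u = t + 1 := ⟨u - 1, by omega⟩
  rw [ht] at hfind hconst
  have htd : t ≤ d := by omega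
  obtain ⟨a, ha⟩ := hconst t (by omega)
  have hroot : (t + 1) * (v - t) = (v - k) * (d + 3) + (k - d - 2) := by
    by_contra hne
    have h2 := step_const hD hB (by omega) (t := t + 1) (by omega) (by omega) (L := a)
      (by simpa using ha) (by rwa [show v + 1 - (t + 1) = v - t by omega])
    obtain ⟨T, hT, -⟩ := hfind.2 0
    obtain ⟨T', hT', hne'⟩ := hfind.2 (lam Bs T)
    exact hne' (h2 T' T hT' hT)
  have htop := lam_top hD hB (by omega) htd (fun j hj => hconst j (by omega)) ha hroot
  -- parameters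
  have hs : 2 ≤ d + 2 - t := by omega
  refine arith_final t (d + 2 - t) (k - d) (v - k) (v - t - 1) (k - t) a (by omega) (by omega)
    ?_ ?_ (by omega) hs htop ?_
  · -- root
    obtain ⟨m2, hm2⟩ : ∃ m2 : ℕ, k = d + 2 + m2 := ⟨k - d - 2, by omega⟩
    obtain ⟨w, hw⟩ : ∃ w : ℕ, v = k + w := ⟨v - k, by omega⟩
    obtain ⟨g, hg⟩ : ∃ g : ℕ, d + 2 = t + g := ⟨d + 2 - t, by omega⟩
    rw [show v - t = g + m2 + w by omega, show v - k = w by omega, show k - d - 2 = m2 by omega,
      show d + 3 = t + g + 1 by omega] at hroot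
    rw [show v - k = w by omega, show d + 2 - t = g by omega, show k - t = g + m2 by omega]
    nlinarith [hroot]
  · have hn := noda hD hB hk
    have : d + 2 = t + (d + 2 - t) := by omega
    rw [← this]
    have e1 : 2 * (v - k) + 2 * (d + 2) = 2 * (v - k) + 2 * d + 4 := by ring
    omega
  · intro ht5
    obtain ⟨l1, hl1⟩ := hconst (t - 1) (by omega)
    obtain ⟨l2, hl2⟩ := hconst (t - 2) (by omega)
    obtain ⟨l3, hl3⟩ := hconst (t - 3) (by omega)
    obtain ⟨l4, hl4⟩ := hconst (t - 4) (by omega)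
    obtain ⟨l5, hl5⟩ := hconst (t - 5) (by omega)
    refine ⟨l1, l2, l3, l4, l5, ?_, ?_, ?_, ?_, ?_⟩
    · have h := rel hD (j := t - 1) (by omega) hl1 (by rwa [show t - 1 + 1 = t by omega])
      rwa [show k - (t - 1) = k - t + 1 by omega, show v - (t - 1) = v - t - 1 + 2 by omega] at h
    · have h := rel hD (j := t - 2) (by omega) hl2 (by rwa [show t - 2 + 1 = t - 1 by omega])
      rwa [show k - (t - 2) = k - t + 2 by omega, show v - (t - 2) = v - t - 1 + 3 by omega] at h
    · have h := rel hD (j := t - 3) (by omega) hl3 (by rwa [show t - 3 + 1 = t - 2 by omega])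
      rwa [show k - (t - 3) = k - t + 3 by omega, show v - (t - 3) = v - t - 1 + 4 by omega] at h
    · have h := rel hD (j := t - 4) (by omega) hl4 (by rwa [show t - 4 + 1 = t - 3 by omega])
      rwa [show k - (t - 4) = k - t + 4 by omega, show v - (t - 4) = v - t - 1 + 5 by omega] at h
    · have h := rel hD (j := t - 5) (by omega) hl5 (by rwa [show t - 5 + 1 = t - 4 by omega])
      rwa [show k - (t - 5) = k - t + 5 by omega, show v - (t - 5) = v - t - 1 + 6 by omega] at h

end Pool.Agent.MP_1e96f1_co
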