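import Mathlib
import Pool.Agent.MP_1e96f1_co.Final

namespace Pool.Agent.MP_1e96f1_co

open Finset

variable {Ω : Type*} [Fintype Ω] [DecidableEq Ω]

/-- complementary blocks -/
def co (Bs : Finset (Finset Ω)) : Finset (Finset Ω) := Bs.image (fun B => Bᶜ)

lemma mem_co {Bs : Finset (Finset Ω)} {B : Finset Ω} : B ∈ co Bs ↔ Bᶜ ∈ Bs := by
  unfold co
  rw [Finset.mem_image]
  constructor
  · rintro ⟨C, hC, rfl⟩
    rwa [compl_compl]
  · intro h
    exact ⟨Bᶜ, h, compl_compl B⟩

lemma co_co (Bs : Finset (Finset Ω)) : co (co Bs) = Bs := by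
  ext B
  rw [mem_co, mem_co, compl_compl]

lemma card_compl_inter (B C : Finset Ω) :
    (Bᶜ ∩ Cᶜ).card + (B.card + C.card) = Fintype.card Ω + (B ∩ C).card := by
  rw [← Finset.compl_union]
  have h1 := Finset.card_union_add_card_inter B C
  have h2 := Finset.card_compl_add_card (B ∪ C)
  omega

lemma design_co {Bs : Finset (Finset Ω)} {v k d : ℕ} (hD : IsDesign Bs v k d) :
    IsDesign (co Bs) v (v - k) (v + d - 2 * k) := by
  obtain ⟨hdk, hkv⟩ := design_facts hD
  refine ⟨hD.card_points, ?_, ?_, ?_, ?_⟩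
  · unfold co
    rw [Finset.card_image_of_injective _ compl_injective]
    exact hD.two_le
  · intro B hB
    rw [mem_co] at hB
    have h1 := hD.card_block _ hB
    have h2 := Finset.card_compl_add_card B
    rw [hD.card_points] at h2
    omega
  · intro B hB C hC hne
    rw [mem_co] at hB hC
    have h1 := hD.card_block _ hB
    have h2 := hD.card_block _ hC
    have h3 := hD.inter_le _ hB _ hC (fun h => hne (compl_injective h))
    have h4 := card_compl_inter Bᶜ Cᶜ
    rw [compl_compl, compl_compl, hD.card_points] at h4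
    omega
  · obtain ⟨B, hB, C, hC, hne, hd⟩ := hD.inter_eq
    refine ⟨Bᶜ, by rwa [mem_co, compl_compl], Cᶜ, by rwa [mem_co, compl_compl],
      fun h => hne (compl_injective h), ?_⟩
    have h1 := hD.card_block _ hB
    have h2 := hD.card_block _ hC
    have h4 := card_compl_inter B C
    rw [hD.card_points] at h4
    omega

lemma beta_co {Bs : Finset (Finset Ω)} {v k d i : ℕ} (hD : IsDesign Bs v k d)
    (hik : i ≤ k - d) (hB : IsBeta Bs v d i) :
    IsBeta (co Bs) v (v + d - 2 * k) (k - d - i + 1) := by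
  obtain ⟨hdk, hkv⟩ := design_facts hD
  obtain ⟨hi, hn, hex⟩ := hB
  refine ⟨by omega, by omega, ?_⟩
  intro X hX
  have hXc : Xᶜ.card = d + 2 * i - 1 := by
    have h2 := Finset.card_compl_add_card X
    rw [hD.card_points] at h2
    omega
  have key : ∀ B ∈ Bs, (d + i ≤ (Xᶜ ∩ B).card ↔
      v + d - 2 * k + (k - d - i + 1) ≤ (X ∩ Bᶜ).card) := by
    intro B hB
    have h1 := hD.card_block _ hB
    have h4 := card_compl_inter Xᶜ B
    rw [compl_compl, hD.card_points] at h4
    omega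
  obtain ⟨B, ⟨hBB, hBX⟩, huniq⟩ := hex Xᶜ hXc
  refine ⟨Bᶜ, ⟨by rwa [mem_co, compl_compl], (key B hBB).mp hBX⟩, ?_⟩
  rintro C ⟨hC, hCX⟩
  rw [mem_co] at hC
  have h1 := huniq Cᶜ ⟨hC, (key Cᶜ hC).mpr (by rwa [compl_compl])⟩
  rw [← h1, compl_compl]

theorem beta_pen_imp_last {Bs : Finset (Finset Ω)} {v k d : ℕ} (hD : IsDesign Bs v k d)
    (hk : d + 5 ≤ k) (hB : IsBeta Bs v d (k - d - 1)) : IsBeta Bs v d (k - d) := by
  obtain ⟨hdk, hkv⟩ := design_facts hD
  have h1 := beta_co hD (by omega) hB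
  rw [show k - d - (k - d - 1) + 1 = 2 by omega] at h1
  have h2 := beta_two_imp_one (design_co hD) (by omega) h1
  have h3 := beta_co (design_co hD) (by omega) h2
  rw [co_co] at h3
  rwa [show v + (v + d - 2 * k) - 2 * (v - k) = d by omega,
    show v - k - (v + d - 2 * k) - 1 + 1 = k - d by omega] at h3

end Pool.Agent.MP_1e96f1_co
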