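import Mathlib

namespace Pool.Agent.MP_1e96f1_co

/-- `S` is the block set of a Steiner system `S(5, 8, 24)` on the finite point set `Ω`: there are 24
points, all blocks have 8 points, and every 5-subset of the points lies in exactly one block. -/
structure IsS5824 {Ω : Type*} [Fintype Ω] [DecidableEq Ω] (S : Finset (Finset Ω)) : Prop where
  card_points : Fintype.card Ω = 24
  card_block : ∀ B ∈ S, B.card = 8
  cover : ∀ X : Finset Ω, X.card = 5 → ∃! B, B ∈ S ∧ X ⊆ B

end Pool.Agent.MP_1e96f1_co
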